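import Pool.Agent.TH148.HX.One

/-!
# Matchings of a finite set (job HX-TAIL0, part 4)
-/

set_option autoImplicit false

namespace Pool.Agent.TH148.HX

/-- the matching `i ↦ c - i` of the set `S`, identified with the group `G` by `e` -/
noncomputable def tc {κ G : Type} [DecidableEq κ] [AddCommGroup G] (S : Finset κ)
    (e : {x // x ∈ S} ≃ G) (c : G) (i : κ) : κ :=
  if h : i ∈ S then (e.symm (c - e ⟨i, h⟩)).1 else i

theorem tc_of_mem {κ G : Type} [DecidableEq κ] [AddCommGroup G] (S : Finset κ)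
    (e : {x // x ∈ S} ≃ G) (c : G) (i : κ) (h : i ∈ S) :
    tc S e c i = (e.symm (c - e ⟨i, h⟩)).1 := by
  unfold tc
  rw [dif_pos h]

theorem tc_out {κ G : Type} [DecidableEq κ] [AddCommGroup G] (S : Finset κ)
    (e : {x // x ∈ S} ≃ G) (c : G) (i : κ) (h : i ∉ S) : tc S e c i = i := by
  unfold tc
  rw [dif_neg h]

theorem tc_tc {κ G : Type} [DecidableEq κ] [AddCommGroup G] (S : Finset κ)
    (e : {x // x ∈ S} ≃ G) (c : G) (i : κ) : tc S e c (tc S e c i) = i := by
  by_cases h : i ∈ S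
  · rw [tc_of_mem S e c i h, tc_of_mem S e c _ (e.symm (c - e ⟨i, h⟩)).2]
    simp
  · rw [tc_out S e c i h, tc_out S e c i h]

theorem sum_tc {κ G : Type} [DecidableEq κ] [AddCommGroup G] [Fintype G] (S : Finset κ)
    (e : {x // x ∈ S} ≃ G) (f : κ → κ → ℝ) :
    ∑ i ∈ S, ∑ j ∈ S, f i j = ∑ c : G, ∑ i ∈ S, f i (tc S e c i) := by
  rw [Finset.sum_comm (s := (Finset.univ : Finset G))]
  refine Finset.sum_congr rfl fun i hi => ?_
  rw [← Finset.sum_coe_sort S (fun j => f i j)]
  rw [← Equiv.sum_comp ((Equiv.subRight (e ⟨i, hi⟩)).trans e.symm) (fun j : S => f i j.1)]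
  refine Finset.sum_congr rfl fun c _ => ?_
  rw [tc_of_mem S e c i hi]
  rfl

/-- the chosen representatives of the two-cycles of `τ` -/
def rp {κ : Type} (φ : κ → ℕ) (τ : κ → κ) (i : κ) : Prop := φ i < φ (τ i)

instance {κ : Type} (φ : κ → ℕ) (τ : κ → κ) : DecidablePred (rp φ τ) :=
  fun i => by unfold rp; infer_instance

theorem rp_not {κ : Type} (φ : κ → ℕ) (τ : κ → κ) (hτ : ∀ i, τ (τ i) = i) (i : κ)
    (h : rp φ τ i) : ¬ rp φ τ (τ i) := by
  unfold rp at *
  rw [hτ]
  omega

theorem sum_rp {κ : Type} [Fintype κ] (φ : κ → ℕ) (hφ : Function.Injective φ)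
    (τ : κ → κ) (hτ : ∀ i, τ (τ i) = i) (g : κ → ℝ) (h0 : ∀ i, τ i = i → g i = 0)
    (hg : ∀ i, g (τ i) = g i) : ∑ i, g i = 2 * ∑ i : {i // rp φ τ i}, g i := by
  have h1 : ∀ i, g i = (if rp φ τ i then g i else 0) + (if rp φ τ (τ i) then g (τ i) else 0) := by
    intro i
    by_cases h : rp φ τ i
    · rw [if_pos h, if_neg (rp_not φ τ hτ i h), add_zero]
    · by_cases h' : rp φ τ (τ i)
      · rw [if_neg h, if_pos h', hg, zero_add]
      · rw [if_neg h, if_neg h', add_zero]
        apply h0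
        apply hφ
        unfold rp at h h'
        rw [hτ] at h'
        omega
  have h2 : ∑ i, (if rp φ τ (τ i) then g (τ i) else 0) = ∑ i, (if rp φ τ i then g i else 0) :=
    Equiv.sum_comp (Function.Involutive.toPerm τ hτ) (fun i => if rp φ τ i then g i else 0)
  have h3 : ∑ i : {i // rp φ τ i}, g i = ∑ i, (if rp φ τ i then g i else 0) := by
    rw [← Finset.sum_filter]
    exact (Finset.sum_subtype (Finset.univ.filter (rp φ τ)) (by simp) g).symm
  calc ∑ i, g i = ∑ i, ((if rp φ τ i then g i else 0) + (if rp φ τ (τ i) then g (τ i) else 0)) :=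
        Finset.sum_congr rfl fun i _ => h1 i
    _ = _ := by rw [Finset.sum_add_distrib, h2, h3]; ring

theorem card_rp {κ : Type} [Fintype κ] [DecidableEq κ] (φ : κ → ℕ) (hφ : Function.Injective φ)
    (τ : κ → κ) (hτ : ∀ i, τ (τ i) = i) (S : Finset κ) (hτS : ∀ i, i ∉ S → τ i = i) :
    2 * (Fintype.card {i // rp φ τ i} : ℝ) ≤ S.card := by
  have h := sum_rp φ hφ τ hτ (fun i => if τ i = i then 0 else 1) (fun i hi => by simp [hi])
    (fun i => by
      rw [hτ]
      by_cases hi : τ i = i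
      · simp [hi]
      · rw [if_neg hi, if_neg (fun h => hi h.symm)])
  have h1 : ∑ i : {i // rp φ τ i}, (if τ i.1 = i.1 then (0 : ℝ) else 1) =
      Fintype.card {i // rp φ τ i} := by
    have : ∀ i : {i // rp φ τ i}, (if τ i.1 = i.1 then (0 : ℝ) else 1) = 1 := by
      intro i
      rw [if_neg]
      intro h
      have := i.2
      unfold rp at this
      rw [h] at this
      exact lt_irrefl _ this
    rw [Finset.sum_congr rfl fun i _ => this i]
    simp
  rw [h1] at h
  rw [← h]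
  have h2 : ∑ i, (if τ i = i then (0 : ℝ) else 1) ≤ ∑ i, (if i ∈ S then (1 : ℝ) else 0) := by
    refine Finset.sum_le_sum fun i _ => ?_
    by_cases hi : i ∈ S
    · rw [if_pos hi]
      split_ifs <;> norm_num
    · rw [if_pos (hτS i hi), if_neg hi]
  refine h2.trans (le_of_eq ?_)
  simp

end Pool.Agent.TH148.HX
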