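import Pool.Agent.TH610.RB.Tail
import Pool.Agent.TH610.RB.Marg

/-!
# Tail of the sum of the distances over the two-cycles of an involution (job HX-TAIL0, part 1)
-/

set_option autoImplicit false

namespace Pool.Agent.TH148.HX

open MeasureTheory Set
open scoped ENNReal InnerProductSpace
open Pool.Agent.H212R2.KLS (mu Bdd)
open Pool.Agent.TH610.RB (V P P_apply RD OB NN nS tail me mg rs me_meas me_lt me_logc me_map
  mg_1 mg_2 le_norm_mg ae_bdd)

/-! ### invariance under all permutations of `S` -/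

theorem perm_inv {κ : Type} [Fintype κ] [DecidableEq κ] (S : Finset κ) (ρ : V κ → ℝ)
    (hinv : ∀ k ∈ S, ∀ l ∈ S, ∀ x y : V κ, (∀ i, y i = x (Equiv.swap k l i)) → ρ y = ρ x)
    (σ : Equiv.Perm κ) (hσ : ∀ i, i ∉ S → σ i = i) (x y : V κ) (hxy : ∀ i, y i = x (σ i)) :
    ρ y = ρ x := by
  have hS : ∀ i, σ i ∈ S ↔ i ∈ S := by
    intro i
    constructor
    · intro h
      by_contra hi
      rw [hσ i hi] at h
      exact hi h
    · intro h
      by_contra hi
      have h1 := hσ _ hi
      have h2 := σ.injective h1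
      exact hi (by rw [h2]; exact h)
  have key : ∀ f : Equiv.Perm {i // i ∈ S}, ∀ x y : V κ,
      (∀ i, y i = x (Equiv.Perm.ofSubtype f i)) → ρ y = ρ x := by
    intro f
    refine Equiv.Perm.swap_induction_on f ?_ ?_
    · intro x y h
      have : y = x := by
        ext i
        simpa using h i
      rw [this]
    · intro f a b _ ih x y h
      obtain ⟨z, hz⟩ : ∃ z : V κ, ∀ i, z i = x (Equiv.swap a.1 b.1 i) :=
        ⟨WithLp.toLp 2 fun i => x (Equiv.swap a.1 b.1 i), fun i => rfl⟩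
      have h1 : ρ z = ρ x := hinv a.1 a.2 b.1 b.2 x z hz
      have h2 : ρ y = ρ z := by
        refine ih z y fun i => ?_
        rw [h i, hz, map_mul, Equiv.Perm.mul_apply, Equiv.Perm.ofSubtype_swap_eq]
      rw [h2, h1]
  refine key (σ.subtypePerm hS) x y fun i => ?_
  rw [Equiv.Perm.ofSubtype_subtypePerm]
  · exact hxy i
  · intro i hi
    by_contra h
    exact hi (hσ i h)

/-! ### the rotation -/

section rot

variable {κ : Type} [Fintype κ] (τ : κ → κ) (q : κ → Prop) [DecidablePred q]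

/-- the rotation in the planes of the two-cycles of `τ` -/
noncomputable def Ql : V κ →ₗ[ℝ] V κ where
  toFun x := WithLp.toLp 2 fun i => if q i then (x i - x (τ i)) / Real.sqrt 2
    else if q (τ i) then -(x (τ i) + x i) / Real.sqrt 2 else x i
  map_add' x y := by
    ext i
    simp only [PiLp.add_apply]
    split_ifs <;> ring
  map_smul' c x := by
    ext i
    simp only [PiLp.smul_apply, smul_eq_mul, RingHom.id_apply]
    split_ifs <;> ring

omit [Fintype κ] in
theorem Ql_apply (x : V κ) (i : κ) : Ql τ q x i = if q i then (x i - x (τ i)) / Real.sqrt 2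
    else if q (τ i) then -(x (τ i) + x i) / Real.sqrt 2 else x i := rfl

variable (hτ : ∀ i, τ (τ i) = i) (hq : ∀ i, q i → ¬ q (τ i))

include hτ hq in
theorem Ql_Ql (x : V κ) : Ql τ q (Ql τ q x) = x := by
  have h2 : Real.sqrt 2 * Real.sqrt 2 = 2 := Real.mul_self_sqrt (by norm_num)
  have h2' : Real.sqrt 2 ≠ 0 := by positivity
  ext i
  by_cases h : q i
  · have h' := hq i h
    rw [Ql_apply, if_pos h, Ql_apply, Ql_apply, if_pos h, if_neg h', hτ, if_pos h]
    field_simp
    rw [Real.sq_sqrt (by norm_num)]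
    ring
  · by_cases h1 : q (τ i)
    · rw [Ql_apply, if_neg h, if_pos h1, Ql_apply, Ql_apply, if_pos h1, if_neg h, if_pos h1, hτ]
      field_simp
      rw [Real.sq_sqrt (by norm_num)]
      ring
    · rw [Ql_apply, if_neg h, if_neg h1, Ql_apply, if_neg h, if_neg h1]

include hτ hq in
theorem Ql_norm (x : V κ) : ‖Ql τ q x‖ = ‖x‖ := by
  have h2 : Real.sqrt 2 ^ 2 = 2 := Real.sq_sqrt (by norm_num)
  have hbij : ∀ f : κ → ℝ, ∑ i, f (τ i) = ∑ i, f i := by
    intro f
    exact Equiv.sum_comp (⟨τ, τ, hτ, hτ⟩ : Equiv.Perm κ) f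
  have h3 : ∀ i, Ql τ q x i ^ 2 + Ql τ q x (τ i) ^ 2 = x i ^ 2 + x (τ i) ^ 2 := by
    intro i
    rw [Ql_apply, Ql_apply, hτ]
    by_cases h : q i
    · have h' := hq i h
      rw [if_pos h, if_neg h', if_pos h, div_pow, div_pow, h2]
      ring
    · by_cases h1 : q (τ i)
      · rw [if_neg h, if_pos h1, if_pos h1, div_pow, div_pow, h2]
        ring
      · rw [if_neg h, if_neg h1, if_neg h1, if_neg h]
  have h4 : ‖Ql τ q x‖ ^ 2 = ‖x‖ ^ 2 := by
    rw [EuclideanSpace.real_norm_sq_eq, EuclideanSpace.real_norm_sq_eq]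
    have h5 : ∑ i, (Ql τ q x i ^ 2 + Ql τ q x (τ i) ^ 2) = ∑ i, (x i ^ 2 + x (τ i) ^ 2) :=
      Finset.sum_congr rfl fun i _ => h3 i
    rw [Finset.sum_add_distrib, Finset.sum_add_distrib, hbij fun i => Ql τ q x i ^ 2,
      hbij fun i => x i ^ 2] at h5
    linarith
  have := (pow_left_inj₀ (norm_nonneg (Ql τ q x)) (norm_nonneg x) (two_ne_zero)).1 h4
  exact this

/-- the rotation as an isometry -/
noncomputable def Qe : V κ ≃ₗᵢ[ℝ] V κ where
  toLinearEquiv := LinearEquiv.ofLinearMap (Ql τ q) (Ql τ q)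
    (LinearMap.ext fun x => Ql_Ql τ q hτ hq x) (LinearMap.ext fun x => Ql_Ql τ q hτ hq x)
  norm_map' x := Ql_norm τ q hτ hq x

theorem Qe_apply (x : V κ) : Qe τ q hτ hq x = Ql τ q x := rfl

include hτ hq in
theorem Q_map (ρ : V κ → ℝ) (hm : Measurable ρ) :
    (mu fun y => ρ (Ql τ q y)).map (Ql τ q) = mu ρ := by
  have hmp : MeasurePreserving (Ql τ q : V κ → V κ) volume volume :=
    (Qe τ q hτ hq).measurePreserving
  ext s hs
  rw [Measure.map_apply hmp.measurable hs]
  unfold mu
  rw [withDensity_apply _ (hmp.measurable hs), withDensity_apply _ hs,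
    ← hmp.setLIntegral_comp_preimage hs hm.ennreal_ofReal]

end rot

end Pool.Agent.TH148.HX
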