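import Pool.Agent.TH148.HX.Sym

/-!
# Tail of the sum of the distances over the two-cycles of an involution (job HX-TAIL0, part 3)
-/

set_option autoImplicit false

namespace Pool.Agent.TH148.HX

open MeasureTheory Set
open scoped ENNReal InnerProductSpace
open Pool.Agent.H212R2.KLS (mu Bdd)
open Pool.Agent.TH610.RB (V P P_apply RD OB NN nS tail me mg rs me_meas me_lt me_logc me_map
  mg_1 mg_2 le_norm_mg ae_bdd norm_sq_P)

theorem norm_P_id {ι : Type} [Fintype ι] [DecidableEq ι] (a : ι) (x : V ι) :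
    ‖P (id : ι → ι) a x‖ = |x a| := by
  have h1 : ‖P (id : ι → ι) a x‖ ^ 2 = |x a| ^ 2 := by
    rw [norm_sq_P, sq_abs]
    simp
  exact (pow_left_inj₀ (norm_nonneg _) (abs_nonneg _) two_ne_zero).1 h1

theorem NN_id {ι : Type} [Fintype ι] [DecidableEq ι] (x : V ι) :
    NN (id : ι → ι) Finset.univ 1 x = ∑ a, |x a| := by
  unfold NN nS
  simp [norm_P_id]

theorem meas_sq {ι : Type} [Fintype ι] (i : ι) : Measurable (fun x : V ι => x i ^ 2) := by
  have h : Measurable (fun x : V ι => x i) := by fun_prop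
  exact h.pow_const 2

theorem meas_sum1 {ι : Type} [Fintype ι] (c : ℝ) :
    MeasurableSet {x : V ι | c < ∑ a, |x a|} := by
  apply measurableSet_lt measurable_const
  apply Continuous.measurable
  refine continuous_finsetSum _ fun i _ => ?_
  have h : Continuous (fun x : V ι => x i) := by fun_prop
  exact h.abs

theorem meas_sum2 {ι κ : Type} [Fintype κ] [Fintype ι] (f g : ι → κ) (c d : ℝ) :
    MeasurableSet {x : V κ | c < ∑ i : ι, |(x (f i) - x (g i)) / d|} := by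
  apply measurableSet_lt measurable_const
  apply Continuous.measurable
  refine continuous_finsetSum _ fun i _ => ?_
  have h : Continuous (fun x : V κ => x (f i)) := by fun_prop
  have h' : Continuous (fun x : V κ => x (g i)) := by fun_prop
  exact ((h.sub h').div_const d).abs

theorem int_sq {κ : Type} [Fintype κ] (ρ : V κ → ℝ) (hB : Bdd ρ) (h1 : mu ρ univ = 1) (i : κ) :
    Integrable (fun x : V κ => x i ^ 2) (mu ρ) := by
  obtain ⟨R, hR⟩ := hB
  have : IsProbabilityMeasure (mu ρ) := ⟨h1⟩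
  have hae := ae_bdd ρ R hR
  have hcoord : Measurable (fun x : V κ => x i) := by fun_prop
  refine Integrable.of_bound (hcoord.pow_const 2).aestronglyMeasurable (R ^ 2) ?_
  filter_upwards [hae] with x hx
  rw [Real.norm_eq_abs, abs_of_nonneg (sq_nonneg _)]
  have h1 : |x i| ≤ ‖x‖ := by
    have h2 := PiLp.norm_apply_le x i
    rwa [Real.norm_eq_abs] at h2
  have h3 : |x i| ≤ R := h1.trans hx
  calc x i ^ 2 = |x i| ^ 2 := (sq_abs _).symm
    _ ≤ R ^ 2 := pow_le_pow_left₀ (abs_nonneg _) h3 2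

theorem inv_tail {κ : Type} [Fintype κ] [DecidableEq κ] (S : Finset κ) (ρ : V κ → ℝ)
    (h0 : ∀ x, 0 ≤ ρ x) (hm : Measurable ρ)
    (hlog : ∀ x y : V κ, ∀ t : ℝ, 0 < t → t < 1 → ρ x ^ (1 - t) * ρ y ^ t ≤
      ρ ((1 - t) • x + t • y))
    (hinv : ∀ k ∈ S, ∀ l ∈ S, ∀ x y : V κ, (∀ i, y i = x (Equiv.swap k l i)) → ρ y = ρ x)
    (hB : Bdd ρ) (h1 : mu ρ univ = 1) (s : ℝ) (hs : 0 < s)
    (hv : ∀ i ∈ S, ∫ x, x i ^ 2 ∂(mu ρ) ≤ s)
    (τ : κ → κ) (q : κ → Prop) [DecidablePred q]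
    (hτ : ∀ i, τ (τ i) = i) (hq : ∀ i, q i → ¬ q (τ i)) (hτS : ∀ i, i ∉ S → τ i = i)
    (hn : 1 ≤ Fintype.card {i // q i}) (L : ℝ) (hL : 1 ≤ L) :
    mu ρ {x | L * (540 * Real.sqrt (2 * s)) * Fintype.card {i // q i} <
      ∑ i : {i // q i}, |(x i - x (τ i)) / Real.sqrt 2|} ≤
      ENNReal.ofReal (Real.exp (-(3 * Fintype.card {i // q i} * (L - 1)))) := by
  have hQc : Continuous (Ql τ q : V κ → V κ) := LinearMap.continuous_of_finiteDimensional _
  obtain ⟨ρ', hρ'⟩ : ∃ ρ' : V κ → ℝ, ρ' = fun y => ρ (Ql τ q y) := ⟨_, rfl⟩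
  have hQmap : (mu ρ').map (Ql τ q) = mu ρ := by
    rw [hρ']
    exact Q_map τ q hτ hq ρ hm
  have h0' : ∀ x, 0 ≤ ρ' x := fun x => by rw [hρ']; exact h0 _
  have hm' : Measurable ρ' := by rw [hρ']; exact hm.comp hQc.measurable
  have hlog' : ∀ x y : V κ, ∀ t : ℝ, 0 < t → t < 1 → ρ' x ^ (1 - t) * ρ' y ^ t ≤
      ρ' ((1 - t) • x + t • y) := by
    intro x y t ht0 ht1
    rw [hρ']
    simp only [map_add, map_smul]
    exact hlog _ _ t ht0 ht1
  have hB' : Bdd ρ' := by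
    obtain ⟨R, hR⟩ := hB
    refine ⟨R, fun x hx => ?_⟩
    rw [hρ']
    apply hR
    rw [Ql_norm τ q hτ hq]
    exact hx
  have h1' : mu ρ' univ = 1 := by
    rw [← h1, ← hQmap, Measure.map_apply hQc.measurable MeasurableSet.univ]
    rfl
  obtain ⟨B', hBb⟩ := Pool.Agent.H888R2.KC.bdd_of_finite ρ' h0' hm' hlog'
    (by rw [h1']; exact ENNReal.one_ne_top)
    (by
      intro h0
      rw [h0] at h1'
      simp at h1')
  have hfin := me_lt q ρ' hB' B' hBb
  have hmeas := me_meas q ρ' hm'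
  obtain ⟨ρ2, hρ2⟩ : ∃ ρ2 : V {i // q i} → ℝ, ρ2 = fun x => (me q ρ' x).toReal := ⟨_, rfl⟩
  have hmap2 : (mu ρ').map (rs q) = mu ρ2 := by
    rw [hρ2]
    exact me_map q ρ' hm' hfin
  have hRD : RD (id : {i // q i} → {i // q i}) (fun _ => ()) ρ2 := by
    refine ⟨fun x => ?_, ?_, ?_, ?_⟩
    · rw [hρ2]
      exact ENNReal.toReal_nonneg
    · rw [hρ2]
      exact hmeas.ennreal_toReal
    · rw [hρ2]
      exact me_logc q ρ' h0' hm' hlog' hfin
    · intro a a' _ x y hxy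
      rw [hρ2]
      show (me q ρ' y).toReal = (me q ρ' x).toReal
      congr 1
      rw [hρ']
      refine me_sym S τ q hτ hq hτS ρ hm hinv a a' x y fun c => ?_
      have h2 := hxy c
      rw [norm_P_id, norm_P_id] at h2
      exact h2
  have hrc : Continuous (rs q : V κ → V {i // q i}) := LinearMap.continuous_of_finiteDimensional _
  have hB2 : Bdd ρ2 := by
    obtain ⟨R, hR⟩ := hB'
    refine ⟨R, fun x hx => ?_⟩
    have h3 : me q ρ' x = 0 := by
      unfold me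
      have : ∀ y : V {i // ¬ q i}, ρ' (mg q (x, y)) = 0 := by
        intro y
        exact hR _ (lt_of_lt_of_le hx (le_norm_mg _ x y))
      simp [this]
    rw [hρ2]
    show (me q ρ' x).toReal = 0
    rw [h3]
    simp
  have h12 : mu ρ2 univ = 1 := by
    rw [← hmap2, Measure.map_apply hrc.measurable MeasurableSet.univ]
    exact h1'
  have hv2 : ∀ i, ∫ x, x i ^ 2 ∂(mu ρ2) ≤ 2 * s := by
    intro i
    have hcoord : ∀ {ι : Type} [Fintype ι] (i : ι), Measurable (fun x : V ι => x i ^ 2) :=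
      fun i => meas_sq i
    have e1 : ∫ x, x i ^ 2 ∂(mu ρ2) = ∫ x : V κ, x i.1 ^ 2 ∂(mu ρ') := by
      rw [← hmap2, integral_map hrc.measurable.aemeasurable (hcoord i).aestronglyMeasurable]
      rfl
    have e2 : ∫ x : V κ, (Ql τ q x) i.1 ^ 2 ∂(mu ρ) = ∫ x : V κ, x i.1 ^ 2 ∂(mu ρ') := by
      have m3 : Measurable fun x : V κ => (Ql τ q x) i.1 ^ 2 := (hcoord i.1).comp hQc.measurable
      rw [← hQmap, integral_map hQc.measurable.aemeasurable m3.aestronglyMeasurable]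
      simp only [Ql_Ql τ q hτ hq]
    rw [e1, ← e2]
    have i1 := int_sq ρ hB h1 i.1
    have i2 := int_sq ρ hB h1 (τ i.1)
    have hS := qS S τ q hτ hq hτS i.1 i.2
    have hle : ∀ x : V κ, (Ql τ q x) i.1 ^ 2 ≤ x i.1 ^ 2 + x (τ i.1) ^ 2 := by
      intro x
      rw [Ql_apply, if_pos i.2, div_pow, Real.sq_sqrt (by norm_num), div_le_iff₀ (by norm_num)]
      nlinarith [sq_nonneg (x i.1 + x (τ i.1))]
    have i3 : Integrable (fun x : V κ => (Ql τ q x) i.1 ^ 2) (mu ρ) := by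
      refine (i1.add i2).mono' ((hcoord i.1).comp hQc.measurable).aestronglyMeasurable
        (ae_of_all _ fun x => ?_)
      rw [Real.norm_eq_abs, abs_of_nonneg (sq_nonneg _)]
      exact hle x
    have e4 : (∫ x : V κ, (Ql τ q x) i.1 ^ 2 ∂(mu ρ)) ≤
        ∫ x : V κ, (x i.1 ^ 2 + x (τ i.1) ^ 2) ∂(mu ρ) := integral_mono i3 (i1.add i2) hle
    have e5 : (∫ x : V κ, (x i.1 ^ 2 + x (τ i.1) ^ 2) ∂(mu ρ)) =
        (∫ x : V κ, x i.1 ^ 2 ∂(mu ρ)) + (∫ x : V κ, x (τ i.1) ^ 2 ∂(mu ρ)) :=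
      integral_add i1 i2
    have e6 := hv _ hS.1
    have e7 := hv _ hS.2
    linarith
  have hOB : OB (id : {i // q i} → {i // q i}) (fun _ => ()) Finset.univ 1 := by
    refine ⟨fun i => Finset.mem_univ _, fun _ _ _ _ => rfl, le_rfl, fun a _ => ?_⟩
    rw [Finset.card_eq_one]
    exact ⟨a, by ext; simp⟩
  have ht := tail hOB hRD hn hB2 h12 (2 * s) (by positivity) hv2 L hL
  obtain ⟨c, hc⟩ : ∃ c : ℝ, c = L * (540 * Real.sqrt (2 * s)) * Fintype.card {i // q i} :=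
    ⟨_, rfl⟩
  rw [← hc] at ht ⊢
  refine le_trans (le_of_eq ?_) ht
  simp only [NN_id]
  have m1 : MeasurableSet {x : V {i // q i} | c < ∑ a, |x a|} := meas_sum1 c
  have m2 : MeasurableSet {x : V κ | c < ∑ i : {i // q i}, |(x i - x (τ i)) / Real.sqrt 2|} :=
    meas_sum2 (fun i : {i // q i} => i.1) (fun i : {i // q i} => τ i.1) c (Real.sqrt 2)
  rw [← hQmap, Measure.map_apply hQc.measurable m2, ← hmap2, Measure.map_apply hrc.measurable m1]
  congr 1
  ext y
  simp only [mem_preimage, mem_ofPred_eq]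
  have e3 : ∀ i : {i // q i}, |((Ql τ q y) i.1 - (Ql τ q y) (τ i.1)) / Real.sqrt 2| =
      |(rs q y) i| := by
    intro i
    have h5 := Ql_apply τ q (Ql τ q y) i.1
    rw [if_pos i.2, Ql_Ql τ q hτ hq] at h5
    rw [← h5]
    rfl
  simp only [e3]

end Pool.Agent.TH148.HX
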