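import Pool.Agent.TH148.HX.Inv

/-!
# Tail of the sum of the distances over the two-cycles of an involution (job HX-TAIL0, part 2)
-/

set_option autoImplicit false

namespace Pool.Agent.TH148.HX

open MeasureTheory Set
open scoped ENNReal InnerProductSpace
open Pool.Agent.H212R2.KLS (mu Bdd)
open Pool.Agent.TH610.RB (V P P_apply RD OB NN nS tail me mg rs me_meas me_lt me_logc me_map
  mg_1 mg_2 le_norm_mg ae_bdd)

section sym

variable {κ : Type} [Fintype κ] [DecidableEq κ] (S : Finset κ) (τ : κ → κ) (q : κ → Prop)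
  [DecidablePred q]
variable (hτ : ∀ i, τ (τ i) = i) (hq : ∀ i, q i → ¬ q (τ i)) (hτS : ∀ i, i ∉ S → τ i = i)

omit [Fintype κ] [DecidablePred q] [DecidableEq κ] in
include hτ hq hτS in
theorem qS (i : κ) (h : q i) : i ∈ S ∧ τ i ∈ S := by
  have h1 : τ i ≠ i := fun h1 => hq i h (by rw [h1]; exact h)
  refine ⟨by_contra fun h2 => h1 (hτS i h2), by_contra fun h2 => h1 ?_⟩
  have h3 := hτS _ h2
  rw [hτ] at h3
  exact h3.symm

omit [DecidableEq κ] [Fintype κ] in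
include hτ hq hτS in
/-- the flips -/
theorem flip_perm (w w0 : V κ) (Γ : Equiv.Perm κ) (hΓτ : ∀ i, Γ (τ i) = τ (Γ i))
    (hΓq : ∀ i, q (Γ i) ↔ q i) (hΓS : ∀ i, i ∉ S → Γ i = i)
    (hA : ∀ i, ¬ q i → w i = w0 (Γ i)) (hB : ∀ i, q i → w i = w0 (Γ i) ∨ w i = -w0 (Γ i)) :
    ∃ σ : Equiv.Perm κ, (∀ i, i ∉ S → σ i = i) ∧ ∀ i, Ql τ q w i = Ql τ q w0 (σ i) := by
  classical
  obtain ⟨F, hF⟩ : ∃ F : κ → κ, ∀ i, F i = if (q i ∧ w i ≠ w0 (Γ i)) ∨
      (q (τ i) ∧ w (τ i) ≠ w0 (Γ (τ i))) then τ i else i := ⟨_, fun i => rfl⟩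
  have hFF : ∀ i, F (F i) = i := by
    intro i
    by_cases h : (q i ∧ w i ≠ w0 (Γ i)) ∨ (q (τ i) ∧ w (τ i) ≠ w0 (Γ (τ i)))
    · rw [hF i, if_pos h, hF (τ i), hτ, if_pos h.symm]
    · rw [hF i, if_neg h, hF i, if_neg h]
  refine ⟨(⟨F, F, hFF, hFF⟩ : Equiv.Perm κ).trans Γ, fun i hi => ?_, fun i => ?_⟩
  · show Γ (F i) = i
    have h1 : F i = i := by
      rw [hF i, hτS i hi]
      split_ifs <;> rfl
    rw [h1, hΓS i hi]
  · show Ql τ q w i = Ql τ q w0 (Γ (F i))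
    by_cases h : q i
    · have h' := hq i h
      by_cases h1 : w i = w0 (Γ i)
      · have h2 : F i = i := by
          rw [hF i, if_neg]
          rintro (h3 | h3)
          · exact h3.2 h1
          · exact h' h3.1
        rw [h2, Ql_apply, if_pos h, Ql_apply, if_pos ((hΓq i).2 h), h1, hA _ h', hΓτ]
      · have h2 : F i = τ i := by
          rw [hF i, if_pos (Or.inl ⟨h, h1⟩)]
        have h3 : w i = -w0 (Γ i) := (hB i h).resolve_left h1
        have h4 : q (τ (Γ (τ i))) := by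
          rw [← hΓτ, hτ]
          exact (hΓq i).2 h
        have h5 : ¬ q (Γ (τ i)) := fun h5 => h' ((hΓq _).1 h5)
        have h6 : τ (Γ (τ i)) = Γ i := by rw [← hΓτ, hτ]
        rw [h2, Ql_apply, if_pos h, Ql_apply, if_neg h5, if_pos h4, h3, hA _ h', h6]
        ring
    · by_cases h1 : q (τ i)
      · by_cases h2 : w (τ i) = w0 (Γ (τ i))
        · have h3 : F i = i := by
            rw [hF i, if_neg]
            rintro (h3 | h3)
            · exact h h3.1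
            · exact h3.2 h2
          have h4 : ¬ q (Γ i) := fun h5 => h ((hΓq _).1 h5)
          have h5 : q (τ (Γ i)) := by
            rw [← hΓτ]
            exact (hΓq _).2 h1
          rw [h3, Ql_apply, if_neg h, if_pos h1, Ql_apply, if_neg h4, if_pos h5, h2, hA _ h, hΓτ]
        · have h3 : F i = τ i := by
            rw [hF i, if_pos (Or.inr ⟨h1, h2⟩)]
          have h4 : w (τ i) = -w0 (Γ (τ i)) := (hB _ h1).resolve_left h2
          have h6 : τ (Γ (τ i)) = Γ i := by rw [← hΓτ, hτ]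
          rw [h3, Ql_apply, if_neg h, if_pos h1, Ql_apply, if_pos ((hΓq _).2 h1), h4, hA _ h, h6]
          ring
      · have h3 : F i = i := by
          rw [hF i, if_neg]
          rintro (h3 | h3)
          · exact h h3.1
          · exact h1 h3.1
        have h4 : ¬ q (Γ i) := fun h5 => h ((hΓq _).1 h5)
        have h5 : ¬ q (τ (Γ i)) := by
          rw [← hΓτ]
          exact fun h6 => h1 ((hΓq _).1 h6)
        rw [h3, Ql_apply, if_neg h, if_neg h1, Ql_apply, if_neg h4, if_neg h5, hA _ h]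

omit [Fintype κ] in
include hτ hq hτS in
/-- the permutation of the pairs -/
theorem pair_perm (a a' : κ) (ha : q a) (ha' : q a') : ∃ Γ : Equiv.Perm κ,
    (∀ i, Γ (τ i) = τ (Γ i)) ∧ (∀ i, q (Γ i) ↔ q i) ∧ (∀ i, i ∉ S → Γ i = i) ∧
    (∀ i, q i → Γ i = Equiv.swap a a' i) ∧ (∀ i, ¬ q i → Γ i = Equiv.swap (τ a) (τ a') i) := by
  have hinj : Function.Injective τ := fun i j h => by rw [← hτ i, ← hτ j, h]
  have s1 : ∀ i, q i → q (Equiv.swap a a' i) := by
    intro i h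
    by_cases h1 : i = a
    · rw [h1, Equiv.swap_apply_left]; exact ha'
    · by_cases h2 : i = a'
      · rw [h2, Equiv.swap_apply_right]; exact ha
      · rw [Equiv.swap_apply_of_ne_of_ne h1 h2]; exact h
  have s2 : ∀ i, ¬ q i → ¬ q (Equiv.swap (τ a) (τ a') i) := by
    intro i h
    by_cases h1 : i = τ a
    · rw [h1, Equiv.swap_apply_left]; exact hq _ ha'
    · by_cases h2 : i = τ a'
      · rw [h2, Equiv.swap_apply_right]; exact hq _ ha
      · rw [Equiv.swap_apply_of_ne_of_ne h1 h2]; exact h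
  obtain ⟨G, hG⟩ : ∃ G : κ → κ, ∀ i, G i = if q i then Equiv.swap a a' i
      else Equiv.swap (τ a) (τ a') i := ⟨_, fun i => rfl⟩
  have g1 : ∀ i, q i → G i = Equiv.swap a a' i := fun i h => by rw [hG, if_pos h]
  have g2 : ∀ i, ¬ q i → G i = Equiv.swap (τ a) (τ a') i := fun i h => by rw [hG, if_neg h]
  have hGG : ∀ i, G (G i) = i := by
    intro i
    by_cases h : q i
    · rw [g1 i h, g1 _ (s1 i h), Equiv.swap_apply_self]
    · rw [g2 i h, g2 _ (s2 i h), Equiv.swap_apply_self]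
  refine ⟨⟨G, G, hGG, hGG⟩, fun i => ?_, fun i => ?_, fun i hi => ?_, g1, g2⟩
  · show G (τ i) = τ (G i)
    by_cases h : q i
    · rw [g1 i h, g2 _ (hq i h), hinj.swap_apply]
    · by_cases h1 : q (τ i)
      · rw [g1 _ h1, g2 i h]
        have h2 : Equiv.swap (τ a) (τ a') i = τ (Equiv.swap a a' (τ i)) := by
          rw [← hinj.swap_apply, hτ]
        rw [h2, hτ]
      · rw [g2 _ h1, g2 i h, hinj.swap_apply]
        have h2 : i ≠ a := fun h2 => h (by rw [h2]; exact ha)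
        have h3 : i ≠ a' := fun h3 => h (by rw [h3]; exact ha')
        have h4 : i ≠ τ a := fun h4 => h1 (by rw [h4, hτ]; exact ha)
        have h5 : i ≠ τ a' := fun h5 => h1 (by rw [h5, hτ]; exact ha')
        rw [Equiv.swap_apply_of_ne_of_ne h2 h3, Equiv.swap_apply_of_ne_of_ne h4 h5]
  · show q (G i) ↔ q i
    by_cases h : q i
    · rw [g1 i h]
      exact ⟨fun _ => h, fun _ => s1 i h⟩
    · rw [g2 i h]
      exact ⟨fun h1 => absurd h1 (s2 i h), fun h1 => absurd h1 h⟩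
  · show G i = i
    have h : ¬ q i := fun h => hi (qS S τ q hτ hq hτS i h).1
    rw [g2 i h]
    have h4 : i ≠ τ a := fun h4 => hi (by rw [h4]; exact (qS S τ q hτ hq hτS a ha).2)
    have h5 : i ≠ τ a' := fun h5 => hi (by rw [h5]; exact (qS S τ q hτ hq hτS a' ha').2)
    rw [Equiv.swap_apply_of_ne_of_ne h4 h5]

include hτ hq hτS in
theorem me_sym (ρ : V κ → ℝ) (hm : Measurable ρ)
    (hinv : ∀ k ∈ S, ∀ l ∈ S, ∀ x y : V κ, (∀ i, y i = x (Equiv.swap k l i)) → ρ y = ρ x)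
    (a a' : {i // q i}) (x y : V {i // q i}) (hxy : ∀ c, |y c| = |x (Equiv.swap a a' c)|) :
    me q (fun y => ρ (Ql τ q y)) y = me q (fun y => ρ (Ql τ q y)) x := by
  obtain ⟨Γ, p1, p2, p3, p4, p5⟩ := pair_perm S τ q hτ hq hτS a.1 a'.1 a.2 a'.2
  obtain ⟨θ, hθ⟩ : ∃ θ : Equiv.Perm {i // ¬ q i}, θ = Equiv.swap ⟨τ a.1, hq _ a.2⟩
    ⟨τ a'.1, hq _ a'.2⟩ := ⟨_, rfl⟩
  obtain ⟨T, hT⟩ : ∃ T : V {i // ¬ q i} ≃ₗᵢ[ℝ] V {i // ¬ q i}, ∀ z i, T z i = z (θ i) :=
    ⟨LinearIsometryEquiv.piLpCongrLeft 2 ℝ ℝ θ.symm, fun z i => rfl⟩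
  have hmp : MeasurePreserving (T : V {i // ¬ q i} → V {i // ¬ q i}) volume volume :=
    T.measurePreserving
  have hQc : Continuous (Ql τ q : V κ → V κ) := LinearMap.continuous_of_finiteDimensional _
  have hmq : Measurable fun w : V κ => ρ (Ql τ q w) := hm.comp hQc.measurable
  have hsec : Measurable fun u : V {i // ¬ q i} =>
      ENNReal.ofReal (ρ (Ql τ q (mg q (y, u)))) :=
    (hmq.comp ((Pool.Agent.TH610.RB.mg_mp q).measurable.comp measurable_prodMk_left)).ennreal_ofReal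
  unfold me
  rw [← hmp.lintegral_comp hsec]
  refine lintegral_congr fun z => ?_
  congr 1
  obtain ⟨w, hw⟩ : ∃ w, w = mg q (y, T z) := ⟨_, rfl⟩
  obtain ⟨w0, hw0⟩ : ∃ w0, w0 = mg q (x, z) := ⟨_, rfl⟩
  rw [← hw, ← hw0]
  have hA : ∀ i, ¬ q i → w i = w0 (Γ i) := by
    intro i h
    have h1 : ¬ q (Γ i) := fun h1 => h ((p2 i).1 h1)
    rw [hw, hw0, mg_2 q _ i h, mg_2 q _ _ h1]
    show T z ⟨i, h⟩ = z ⟨Γ i, h1⟩
    rw [hT]
    have h3 : θ ⟨i, h⟩ = ⟨Γ i, h1⟩ := by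
      apply Subtype.ext
      show (θ ⟨i, h⟩).1 = Γ i
      rw [p5 i h, hθ, ← Subtype.val_injective.swap_apply]
    rw [h3]
  have hB : ∀ i, q i → w i = w0 (Γ i) ∨ w i = -w0 (Γ i) := by
    intro i h
    have h1 : q (Γ i) := (p2 i).2 h
    rw [hw, hw0, mg_1 q _ i h, mg_1 q _ _ h1]
    have h2 := hxy ⟨i, h⟩
    have h3 : Equiv.swap a a' ⟨i, h⟩ = ⟨Γ i, h1⟩ := by
      apply Subtype.ext
      show (Equiv.swap a a' ⟨i, h⟩).1 = Γ i
      rw [p4 i h, ← Subtype.val_injective.swap_apply]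
    rw [h3] at h2
    exact abs_eq_abs.1 h2
  obtain ⟨σ, hσ1, hσ2⟩ := flip_perm S τ q hτ hq hτS w w0 Γ p1 p2 p3 hA hB
  exact perm_inv S ρ hinv σ hσ1 _ _ hσ2

end sym

end Pool.Agent.TH148.HX
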